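import Mathlib

/-
A torsion-free Hopfian abelian group that is not co-finitely injective.

`U = ℚ[X]`, `x = divX` (the backward shift), `A = ℤ[X] + ℤ·(1/2)`. The group is
`G = (A ⊕ 0)[1/2] + (0 ⊕ A)[1/3] + diag(A)[1/5] + graph(x on A)[1/7]` inside `U × U`.
Every endomorphism of `G` acts as `(g, g)` with `g` commuting with `x`; if it is not injective it
kills the constants, so its image misses `(0, 1/2)`. The map `(x, x)` has a kernel and a cokernel
with at most two elements.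
-/

set_option autoImplicit false

namespace Pool.Agent.P.MP_f7162b_al

open Polynomial

/-- integer polynomials plus half-integer constants -/
def A : AddSubgroup ℚ[X] where
  carrier := {u | (∀ i, ∃ z : ℤ, u.coeff (i + 1) = z) ∧ ∃ z : ℤ, 2 * u.coeff 0 = z}
  zero_mem' := ⟨fun _ => ⟨0, by simp⟩, 0, by simp⟩
  add_mem' := by
    rintro u v ⟨h1, z, hz⟩ ⟨h2, w, hw⟩
    refine ⟨fun i => ?_, z + w, by simp [mul_add, hz, hw]⟩
    obtain ⟨a, ha⟩ := h1 i
    obtain ⟨b, hb⟩ := h2 i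
    exact ⟨a + b, by simp [ha, hb]⟩
  neg_mem' := by
    rintro u ⟨h1, z, hz⟩
    refine ⟨fun i => ?_, -z, by simp [hz]⟩
    obtain ⟨a, ha⟩ := h1 i
    exact ⟨-a, by simp [ha]⟩

theorem divX_mem {u : ℚ[X]} (h : u ∈ A) : divX u ∈ A := by
  obtain ⟨h1, _⟩ := h
  refine ⟨fun i => by simpa [coeff_divX] using h1 (i + 1), ?_⟩
  obtain ⟨a, ha⟩ := h1 0
  exact ⟨2 * a, by simp [coeff_divX, ha]⟩

theorem X_mul_mem {u : ℚ[X]} (h : u ∈ A) (h0 : ∃ z : ℤ, u.coeff 0 = z) : X * u ∈ A := by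
  refine ⟨fun i => ?_, 0, by simp⟩
  rw [coeff_X_mul]
  cases i with
  | zero => exact h0
  | succ i => exact h.1 i

theorem divX_X_mul' (u : ℚ[X]) : divX (X * u) = u := by
  ext i
  rw [coeff_divX, coeff_X_mul]

theorem divX_nsmul (m : ℕ) (u : ℚ[X]) : divX (m • u) = m • divX u :=
  map_nsmul (divX_hom (R := ℚ)) m u

theorem cn (m : ℕ) (u : ℚ[X]) (i : ℕ) : (m • u).coeff i = m * u.coeff i := by
  rw [coeff_smul, nsmul_eq_mul]

theorem cz (m : ℤ) (u : ℚ[X]) (i : ℕ) : (m • u).coeff i = m * u.coeff i := by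
  rw [coeff_smul, zsmul_eq_mul]

/-- the constant one half -/
noncomputable def e0 : ℚ[X] := C (1 / 2)

theorem e0_mem : e0 ∈ A := ⟨fun i => ⟨0, by simp [e0]⟩, 1, by simp [e0]⟩

theorem e0_zero : e0.coeff 0 = 1 / 2 := by simp [e0]

theorem e0_succ (i : ℕ) : e0.coeff (i + 1) = 0 := by simp [e0]

/-- localisation of `A` at a multiplicative set of natural numbers -/
def loc (S : Submonoid ℕ) : AddSubgroup ℚ[X] where
  carrier := {u | ∃ m ∈ S, m • u ∈ A}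
  zero_mem' := ⟨1, S.one_mem, by simp⟩
  add_mem' := by
    rintro u v ⟨m, hm, hu⟩ ⟨n, hn, hv⟩
    refine ⟨m * n, S.mul_mem hm hn, ?_⟩
    rw [smul_add]
    refine A.add_mem ?_ ?_
    · rw [mul_comm, mul_smul]; exact A.nsmul_mem hu n
    · rw [mul_smul]; exact A.nsmul_mem hv m
  neg_mem' := by
    rintro u ⟨m, hm, hu⟩
    exact ⟨m, hm, by rw [smul_neg]; exact A.neg_mem hu⟩

theorem mem_loc_of_mem (S : Submonoid ℕ) {u : ℚ[X]} (h : u ∈ A) : u ∈ loc S :=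
  ⟨1, S.one_mem, by simpa using h⟩

theorem loc_mono {S T : Submonoid ℕ} (h : S ≤ T) {u : ℚ[X]} (hu : u ∈ loc S) : u ∈ loc T := by
  obtain ⟨m, hm, hu⟩ := hu
  exact ⟨m, h hm, hu⟩

theorem divX_mem_loc {S : Submonoid ℕ} {u : ℚ[X]} (hu : u ∈ loc S) : divX u ∈ loc S := by
  obtain ⟨m, hm, hu⟩ := hu
  exact ⟨m, hm, by rw [← divX_nsmul]; exact divX_mem hu⟩

/-- numbers prime to `q` -/
def cop (q : ℕ) : Submonoid ℕ where
  carrier := {m | Nat.Coprime m q}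
  one_mem' := Nat.coprime_one_left q
  mul_mem' := fun h1 h2 => Nat.Coprime.mul_left h1 h2

theorem away_at {p q : ℕ} (h : Nat.Coprime p q) {u : ℚ[X]} (hu : u ∈ loc (Submonoid.powers p)) :
    u ∈ loc (cop q) := by
  refine loc_mono ?_ hu
  rintro _ ⟨n, rfl⟩
  exact Nat.Coprime.pow_left n h

theorem eq_zero_of_div {q : ℕ} (hq : 1 < q) {u : ℚ[X]}
    (h : ∀ n : ℕ, ∃ w ∈ loc (cop q), u = q ^ n • w) : u = 0 := by
  ext i
  have key : ∀ n : ℕ, ((q : ℤ) ^ n) ∣ (2 * u.coeff i).num := by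
    intro n
    obtain ⟨w, ⟨m, hm, hw⟩, rfl⟩ := h n
    obtain ⟨z, hz⟩ : ∃ z : ℤ, 2 * (m • w).coeff i = z := by
      cases i with
      | zero => exact hw.2
      | succ i =>
        obtain ⟨a, ha⟩ := hw.1 i
        exact ⟨2 * a, by rw [ha]; simp⟩
    set r : ℚ := 2 * (q ^ n • w).coeff i with hr
    have h1 : (m : ℚ) * r = (q : ℚ) ^ n * z := by
      rw [hr, ← hz, cn, cn]; push_cast; ring
    have h2 : (m : ℤ) * r.num = (q : ℤ) ^ n * (z * r.den) := by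
      have : ((m : ℤ) * r.num : ℚ) = (q : ℤ) ^ n * (z * r.den) := by
        rw [← Rat.mul_den_eq_num r]; push_cast; rw [← mul_assoc, h1]; ring
      exact_mod_cast this
    have h3 : IsCoprime ((q : ℤ) ^ n) (m : ℤ) := by
      apply IsCoprime.pow_left
      exact Nat.isCoprime_iff_coprime.2 (Nat.Coprime.symm hm)
    exact h3.dvd_of_dvd_mul_left ⟨_, h2⟩
  have h0 : (2 * u.coeff i).num = 0 := by
    by_contra hne
    obtain ⟨n, hn⟩ := pow_unbounded_of_one_lt |(2 * u.coeff i).num| (show (1 : ℤ) < q by exact_mod_cast hq)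
    have := Int.le_of_dvd (abs_pos.2 hne) ((dvd_abs _ _).2 (key n))
    omega
  have := Rat.num_eq_zero.1 h0
  simpa using this

theorem div_away (q : ℕ) (hq : 0 < q) {u : ℚ[X]} (hu : u ∈ loc (Submonoid.powers q)) (n : ℕ) :
    ∃ w ∈ loc (Submonoid.powers q), u = q ^ n • w := by
  obtain ⟨_, ⟨k, rfl⟩, hu⟩ := hu
  have hq' : ((q : ℚ) ^ n) ≠ 0 := by positivity
  have e : u = q ^ n • (((q : ℚ) ^ n)⁻¹ • u) := by
    rw [← Nat.cast_smul_eq_nsmul ℚ, smul_smul]; push_cast; rw [mul_inv_cancel₀ hq', one_smul]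
  refine ⟨((q : ℚ) ^ n)⁻¹ • u, ⟨q ^ (k + n), ⟨k + n, rfl⟩, ?_⟩, e⟩
  rw [pow_add, mul_smul, ← e]
  exact hu

/-- the group -/
noncomputable def G : AddSubgroup (ℚ[X] × ℚ[X]) where
  carrier := {v | ∃ a ∈ loc (Submonoid.powers 2), ∃ b ∈ loc (Submonoid.powers 3),
    ∃ c ∈ loc (Submonoid.powers 5), ∃ d ∈ loc (Submonoid.powers 7),
      v = (a + c + d, b + c + divX d)}
  zero_mem' := ⟨0, zero_mem _, 0, zero_mem _, 0, zero_mem _, 0, zero_mem _, by ext1 <;> simp⟩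
  add_mem' := by
    rintro _ _ ⟨a, ha, b, hb, c, hc, d, hd, rfl⟩ ⟨a', ha', b', hb', c', hc', d', hd', rfl⟩
    refine ⟨_, add_mem ha ha', _, add_mem hb hb', _, add_mem hc hc', _, add_mem hd hd', ?_⟩
    rw [divX_add]
    ext1 <;> simp <;> ring
  neg_mem' := by
    rintro _ ⟨a, ha, b, hb, c, hc, d, hd, rfl⟩
    refine ⟨_, neg_mem ha, _, neg_mem hb, _, neg_mem hc, _, neg_mem hd, ?_⟩
    have : divX (-d) = -divX d := map_neg (divX_hom (R := ℚ)) d
    rw [this]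
    ext1 <;> simp <;> ring

theorem mem2 {a : ℚ[X]} (h : a ∈ loc (Submonoid.powers 2)) : (a, 0) ∈ G :=
  ⟨a, h, 0, zero_mem _, 0, zero_mem _, 0, zero_mem _, by simp⟩
theorem mem3 {a : ℚ[X]} (h : a ∈ loc (Submonoid.powers 3)) : (0, a) ∈ G :=
  ⟨0, zero_mem _, a, h, 0, zero_mem _, 0, zero_mem _, by simp⟩
theorem mem5 {a : ℚ[X]} (h : a ∈ loc (Submonoid.powers 5)) : (a, a) ∈ G :=
  ⟨0, zero_mem _, 0, zero_mem _, a, h, 0, zero_mem _, by simp⟩
theorem mem7 {a : ℚ[X]} (h : a ∈ loc (Submonoid.powers 7)) : (a, divX a) ∈ G :=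
  ⟨0, zero_mem _, 0, zero_mem _, 0, zero_mem _, a, h, by simp⟩

theorem proj2 {v : ℚ[X] × ℚ[X]} (h : v ∈ G) : v.2 ∈ loc (cop 2) := by
  obtain ⟨a, ha, b, hb, c, hc, d, hd, rfl⟩ := h
  exact add_mem (add_mem (away_at (by norm_num) hb) (away_at (by norm_num) hc))
    (divX_mem_loc (away_at (by norm_num) hd))
theorem proj3 {v : ℚ[X] × ℚ[X]} (h : v ∈ G) : v.1 ∈ loc (cop 3) := by
  obtain ⟨a, ha, b, hb, c, hc, d, hd, rfl⟩ := h
  exact add_mem (add_mem (away_at (by norm_num) ha) (away_at (by norm_num) hc))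
    (away_at (by norm_num) hd)
theorem proj5 {v : ℚ[X] × ℚ[X]} (h : v ∈ G) : v.1 - v.2 ∈ loc (cop 5) := by
  obtain ⟨a, ha, b, hb, c, hc, d, hd, rfl⟩ := h
  have : (a + c + d) - (b + c + divX d) = a - b + d - divX d := by ring
  show (a + c + d) - (b + c + divX d) ∈ _
  rw [this]
  exact sub_mem (add_mem (sub_mem (away_at (by norm_num) ha) (away_at (by norm_num) hb))
    (away_at (by norm_num) hd)) (divX_mem_loc (away_at (by norm_num) hd))
theorem proj7 {v : ℚ[X] × ℚ[X]} (h : v ∈ G) : v.2 - divX v.1 ∈ loc (cop 7) := by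
  obtain ⟨a, ha, b, hb, c, hc, d, hd, rfl⟩ := h
  have : (b + c + divX d) - divX (a + c + d) = b + c - divX a - divX c := by
    rw [divX_add, divX_add]; ring
  show (b + c + divX d) - divX (a + c + d) ∈ _
  rw [this]
  exact sub_mem (sub_mem (add_mem (away_at (by norm_num) hb) (away_at (by norm_num) hc))
    (divX_mem_loc (away_at (by norm_num) ha))) (divX_mem_loc (away_at (by norm_num) hc))

/-- an endomorphism respects the `q`-divisible part -/
theorem respect (f : G →+ G) (q : ℕ) (hq : 1 < q) (ι : ℚ[X] → ℚ[X] × ℚ[X])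
    (π : ℚ[X] × ℚ[X] → ℚ[X]) (h1 : ∀ (n : ℕ) a, ι (n • a) = n • ι a)
    (h2 : ∀ (n : ℕ) v, π (n • v) = n • π v) (hι : ∀ a ∈ loc (Submonoid.powers q), ι a ∈ G)
    (hπ : ∀ v ∈ G, π v ∈ loc (cop q)) (a : ℚ[X]) (ha : a ∈ loc (Submonoid.powers q)) :
    π (f ⟨ι a, hι a ha⟩) = 0 := by
  refine eq_zero_of_div hq fun n => ?_
  obtain ⟨w, hw, e⟩ := div_away q (by omega) ha n
  refine ⟨π (f ⟨ι w, hι w hw⟩), hπ _ (f _).2, ?_⟩
  have : (⟨ι a, hι a ha⟩ : G) = q ^ n • (⟨ι w, hι w hw⟩ : G) := by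
    apply Subtype.ext
    show ι a = q ^ n • ι w
    rw [e, h1]
  rw [this, map_nsmul, AddSubgroup.coe_nsmul, h2]

theorem memAA {a b : ℚ[X]} (ha : a ∈ A) (hb : b ∈ A) : (a, b) ∈ G := by
  have := G.add_mem (mem2 (mem_loc_of_mem _ ha)) (mem3 (mem_loc_of_mem _ hb))
  simpa using this

theorem clear_den {v : ℚ[X] × ℚ[X]} (h : v ∈ G) :
    ∃ N : ℕ, 0 < N ∧ N • v.1 ∈ A ∧ N • v.2 ∈ A := by
  obtain ⟨m, hm, h1⟩ := proj3 h
  obtain ⟨n, hn, h2⟩ := proj2 h
  have hm0 : 0 < m := Nat.pos_of_ne_zero (by rintro rfl; exact absurd hm (by simp [cop]))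
  have hn0 : 0 < n := Nat.pos_of_ne_zero (by rintro rfl; exact absurd hn (by simp [cop]))
  refine ⟨m * n, by positivity, ?_, ?_⟩
  · rw [mul_comm, mul_smul]; exact A.nsmul_mem h1 n
  · rw [mul_smul]; exact A.nsmul_mem h2 m

theorem nsmul_cancel {N : ℕ} (hN : 0 < N) {u v : ℚ[X]} (h : N • u = N • v) : u = v := by
  rw [← Nat.cast_smul_eq_nsmul ℚ, ← Nat.cast_smul_eq_nsmul ℚ] at h
  exact smul_right_injective _ (by positivity) h

theorem structure_thm (f : G →+ G) : ∃ g : A →+ ℚ[X],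
    (∀ a b : A, ((f ⟨(a, b), memAA a.2 b.2⟩ : G) : ℚ[X] × ℚ[X]) = (g a, g b)) ∧
    (∀ a : A, g ⟨divX a, divX_mem a.2⟩ = divX (g a)) := by
  let i1 : A →+ G := ((AddMonoidHom.inl ℚ[X] ℚ[X]).comp A.subtype).codRestrict G
    (fun a => mem2 (mem_loc_of_mem _ a.2))
  let i2 : A →+ G := ((AddMonoidHom.inr ℚ[X] ℚ[X]).comp A.subtype).codRestrict G
    (fun a => mem3 (mem_loc_of_mem _ a.2))
  let g1 : A →+ ℚ[X] := ((AddMonoidHom.fst _ _).comp G.subtype).comp (f.comp i1)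
  let g2 : A →+ ℚ[X] := ((AddMonoidHom.snd _ _).comp G.subtype).comp (f.comp i2)
  have h1 : ∀ a : A, ((f (i1 a) : G) : ℚ[X] × ℚ[X]) = (g1 a, 0) := by
    intro a
    refine Prod.ext rfl ?_
    exact respect f 2 (by norm_num) (fun a => (a, 0)) (fun v => v.2) (by simp) (by simp)
      (fun a h => mem2 h) (fun v h => proj2 h) a (mem_loc_of_mem _ a.2)
  have h2 : ∀ a : A, ((f (i2 a) : G) : ℚ[X] × ℚ[X]) = (0, g2 a) := by
    intro a
    refine Prod.ext ?_ rfl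
    exact respect f 3 (by norm_num) (fun a => (0, a)) (fun v => v.1) (by simp) (by simp)
      (fun a h => mem3 h) (fun v h => proj3 h) a (mem_loc_of_mem _ a.2)
  have h12 : ∀ a b : A, ((f ⟨(a, b), memAA a.2 b.2⟩ : G) : ℚ[X] × ℚ[X]) = (g1 a, g2 b) := by
    intro a b
    have : (⟨(a, b), memAA a.2 b.2⟩ : G) = i1 a + i2 b := by
      apply Subtype.ext
      show ((a : ℚ[X]), (b : ℚ[X])) = ((a : ℚ[X]), 0) + (0, (b : ℚ[X]))
      simp
    rw [this, map_add, AddSubgroup.coe_add, h1, h2]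
    simp
  have h3 : ∀ a : A, g1 a = g2 a := by
    intro a
    have := respect f 5 (by norm_num) (fun a => (a, a)) (fun v => v.1 - v.2)
      (fun n a => rfl) (fun n v => by rw [smul_sub]; rfl)
      (fun a h => mem5 h) (fun v h => proj5 h) a (mem_loc_of_mem _ a.2)
    simp only [h12 a a] at this
    exact sub_eq_zero.1 this
  refine ⟨g1, fun a b => by rw [h12, h3 b], fun a => ?_⟩
  have := respect f 7 (by norm_num) (fun a => (a, divX a)) (fun v => v.2 - divX v.1)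
    (fun n a => by rw [divX_nsmul]; rfl) (fun n v => by rw [smul_sub, ← divX_nsmul]; rfl)
    (fun a h => mem7 h) (fun v h => proj7 h) a (mem_loc_of_mem _ a.2)
  have h := h12 a ⟨divX a, divX_mem a.2⟩
  simp only [h] at this
  rw [h3]
  exact sub_eq_zero.1 this

theorem kills_e0 (g : A →+ ℚ[X]) (hg : ∀ a : A, g ⟨divX a, divX_mem a.2⟩ = divX (g a)) :
    ∀ n : ℕ, ∀ a : A, (a : ℚ[X]).natDegree = n → (a : ℚ[X]) ≠ 0 → g a = 0 → g ⟨e0, e0_mem⟩ = 0 := by
  intro n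
  induction n with
  | zero =>
    intro a hd h0 hga
    obtain ⟨z, hz⟩ := a.2.2
    have e : a = z • (⟨e0, e0_mem⟩ : A) := by
      apply Subtype.ext
      show (a : ℚ[X]) = z • e0
      rw [eq_C_of_natDegree_eq_zero hd, e0, ← map_zsmul]
      congr 1
      rw [zsmul_eq_mul, ← hz]; ring
    have hz0 : z ≠ 0 := by
      rintro rfl
      apply h0
      rw [e]; simp
    rw [e, map_zsmul, ← Int.cast_smul_eq_zsmul ℚ] at hga
    exact (smul_eq_zero.1 hga).resolve_left (by exact_mod_cast hz0)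
  | succ n ih =>
    intro a hd h0 hga
    refine ih ⟨divX a, divX_mem a.2⟩ ?_ ?_ ?_
    · show (divX (a : ℚ[X])).natDegree = n
      rw [natDegree_divX_eq_natDegree_tsub_one, hd]; rfl
    · show divX (a : ℚ[X]) ≠ 0
      intro h
      rw [divX_eq_zero_iff] at h
      rw [h] at hd
      simp at hd
    · rw [hg, hga]; simp

theorem split_A {a : ℚ[X]} (ha : a ∈ A) : ∃ z : ℤ, X * (a - z • e0) ∈ A := by
  obtain ⟨z, hz⟩ := ha.2
  refine ⟨z, X_mul_mem (A.sub_mem ha (A.zsmul_mem e0_mem z)) ⟨0, ?_⟩⟩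
  rw [coeff_sub, cz, e0_zero, ← hz]
  push_cast; ring

theorem hopfian (f : G →+ G) (hf : Function.Surjective f) : Function.Bijective f := by
  refine ⟨?_, hf⟩
  rw [injective_iff_map_eq_zero]
  intro v hv
  by_contra hv0
  obtain ⟨g, hfg, hg⟩ := structure_thm f
  have key : ∀ (w : G) (N : ℕ) (h1 : N • (w : ℚ[X] × ℚ[X]).1 ∈ A)
      (h2 : N • (w : ℚ[X] × ℚ[X]).2 ∈ A),
      N • ((f w : G) : ℚ[X] × ℚ[X]) = (g ⟨_, h1⟩, g ⟨_, h2⟩) := by
    intro w N h1 h2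
    rw [← hfg, ← AddSubgroup.coe_nsmul, ← map_nsmul]
    rfl
  have he : g ⟨e0, e0_mem⟩ = 0 := by
    obtain ⟨N, hN, h1, h2⟩ := clear_den v.2
    have h := key v N h1 h2
    rw [hv] at h
    simp only [AddSubgroup.coe_zero, smul_zero] at h
    have g1 : g ⟨_, h1⟩ = 0 := (congrArg Prod.fst h).symm
    have g2 : g ⟨_, h2⟩ = 0 := (congrArg Prod.snd h).symm
    by_cases c1 : N • (v : ℚ[X] × ℚ[X]).1 = 0
    · by_cases c2 : N • (v : ℚ[X] × ℚ[X]).2 = 0
      · exfalso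
        apply hv0
        apply Subtype.ext
        refine Prod.ext (nsmul_cancel hN ?_) (nsmul_cancel hN ?_)
        · simpa using c1
        · simpa using c2
      · exact kills_e0 g hg _ _ rfl c2 g2
    · exact kills_e0 g hg _ _ rfl c1 g1
  obtain ⟨w, hw⟩ := hf ⟨(0, e0), memAA A.zero_mem e0_mem⟩
  obtain ⟨N, hN, h1, h2⟩ := clear_den w.2
  obtain ⟨m, hm, hmw⟩ := proj2 w.2
  have h3 : g ⟨_, hmw⟩ = m • e0 := by
    have h := congrArg Prod.snd (key w N h1 h2)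
    rw [hw] at h
    have h' : N • e0 = g ⟨_, h2⟩ := h
    apply nsmul_cancel hN
    rw [smul_comm N m e0, h', ← map_nsmul, ← map_nsmul]
    congr 1
    apply Subtype.ext
    show N • m • (w : ℚ[X] × ℚ[X]).2 = m • N • (w : ℚ[X] × ℚ[X]).2
    rw [smul_comm]
  obtain ⟨z, hz⟩ := split_A hmw
  have h4 : (⟨_, hmw⟩ : A) = z • (⟨e0, e0_mem⟩ : A) + ⟨divX ((⟨_, hz⟩ : A) : ℚ[X]), divX_mem hz⟩ := by
    apply Subtype.ext
    show m • (w : ℚ[X] × ℚ[X]).2 = z • e0 + divX (X * (m • (w : ℚ[X] × ℚ[X]).2 - z • e0))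
    rw [divX_X_mul']; ring
  rw [h4, map_add, map_zsmul, he, hg] at h3
  have h5 : g ⟨_, hz⟩ ∈ loc (cop 2) := by
    have := proj2 (f ⟨((0 : A), (⟨_, hz⟩ : A)), memAA (0 : A).2 hz⟩).2
    rwa [hfg] at this
  obtain ⟨k, hk, hk'⟩ := h5
  obtain ⟨y, hy⟩ := hk'.1 0
  have h6 := congrArg (fun u : ℚ[X] => u.coeff 0) h3
  simp only [smul_zero, zero_add] at h6
  rw [coeff_divX, cn, e0_zero] at h6
  rw [cn, h6] at hy
  have h7 : (k : ℤ) * m = 2 * y := by
    have : ((k : ℤ) * m : ℚ) = 2 * y := by rw [← hy]; push_cast; ring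
    exact_mod_cast this
  have hk2 : Odd k := Nat.coprime_two_right.1 hk
  have hm2 : Odd m := Nat.coprime_two_right.1 hm
  obtain ⟨j, hj⟩ := hk2.mul hm2
  have : ((k * m : ℕ) : ℤ) = 2 * y := by push_cast; exact h7
  omega

theorem shift_mem {v : ℚ[X] × ℚ[X]} (h : v ∈ G) : (divX v.1, divX v.2) ∈ G := by
  obtain ⟨a, ha, b, hb, c, hc, d, hd, rfl⟩ := h
  exact ⟨_, divX_mem_loc ha, _, divX_mem_loc hb, _, divX_mem_loc hc, _, divX_mem_loc hd,
    by simp [divX_add]⟩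

/-- the endomorphism with finite cokernel and non-zero kernel -/
noncomputable def φ : G →+ G :=
  ((divX_hom.prodMap divX_hom).comp G.subtype).codRestrict G (fun v => shift_mem v.2)

theorem φ_val (v : G) : ((φ v : G) : ℚ[X] × ℚ[X]) = (divX v.1.1, divX v.1.2) := rfl

theorem ker_ne : φ.ker ≠ ⊥ := by
  intro h
  have : (⟨(0, e0), memAA A.zero_mem e0_mem⟩ : G) ∈ φ.ker := by
    rw [AddMonoidHom.mem_ker]
    apply Subtype.ext
    rw [φ_val]
    simp [e0]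
  rw [h, AddSubgroup.mem_bot] at this
  have := congrArg (fun v : G => v.1.2.coeff 0) this
  simp [e0] at this

theorem split_loc {q : ℕ} (hq : Odd q) {a : ℚ[X]} (ha : a ∈ loc (Submonoid.powers q)) :
    ∃ z : ℤ, X * (a - z • e0) ∈ loc (Submonoid.powers q) := by
  obtain ⟨_, ⟨n, rfl⟩, h⟩ := ha
  obtain ⟨z, hz⟩ := h.2
  obtain ⟨j, hj⟩ : Odd (q ^ n) := hq.pow
  refine ⟨z, q ^ n, ⟨n, rfl⟩, ?_⟩
  rw [← mul_smul_comm, smul_sub]
  refine X_mul_mem (A.sub_mem h (A.nsmul_mem (A.zsmul_mem e0_mem z) _)) ⟨-(j * z), ?_⟩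
  simp only at hz
  rw [coeff_sub]
  have h1 : (q ^ n • z • e0).coeff 0 = (2 * j + 1) * z / 2 := by
    rw [hj, cn, cz, e0_zero]
    push_cast; ring
  rw [h1]
  push_cast
  linarith

theorem X_mul_away_two {a : ℚ[X]} (ha : a ∈ loc (Submonoid.powers 2)) :
    X * a ∈ loc (Submonoid.powers 2) := by
  obtain ⟨_, ⟨n, rfl⟩, h⟩ := ha
  refine ⟨2 ^ (n + 1), ⟨n + 1, rfl⟩, ?_⟩
  rw [← mul_smul_comm, pow_succ', mul_smul]
  refine X_mul_mem (A.nsmul_mem h 2) ?_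
  obtain ⟨z, hz⟩ := h.2
  exact ⟨z, by rw [← hz]; simp⟩

theorem coker_finite : Finite (G ⧸ φ.range) := by
  let t : G := ⟨(0, e0), memAA A.zero_mem e0_mem⟩
  have key : ∀ v : G, ∃ z : ℤ, v - z • t ∈ φ.range := by
    rintro ⟨_, a, ha, b, hb, c, hc, d, hd, rfl⟩
    obtain ⟨zb, hzb⟩ := split_loc (by decide) hb
    obtain ⟨zc, hzc⟩ := split_loc (by decide) hc
    obtain ⟨zd, hzd⟩ := split_loc (by decide) hd
    have ha' : a + (zc + zd) • e0 ∈ loc (Submonoid.powers 2) :=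
      add_mem ha (mem_loc_of_mem _ (A.zsmul_mem e0_mem _))
    refine ⟨zb + zc, ⟨_, _, X_mul_away_two ha', _, hzb, _, hzc, _, hzd, rfl⟩, ?_⟩
    apply Subtype.ext
    rw [φ_val]
    have h0 : divX (d - zd • e0) = divX d := by
      ext i
      rw [coeff_divX, coeff_divX, coeff_sub, cz, e0_succ]; simp
    simp only [divX_add, divX_X_mul', h0, t, AddSubgroup.coe_sub, AddSubgroup.coe_zsmul]
    refine Prod.ext ?_ ?_
    · simp only [Prod.fst_sub, Prod.smul_mk, smul_zero, add_smul, Prod.fst_add]; abel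
    · simp only [Prod.snd_sub, Prod.smul_mk, add_smul, Prod.snd_add]; abel
  have h2 : (2 : ℕ) • (QuotientAddGroup.mk t : G ⧸ φ.range) = 0 := by
    rw [← QuotientAddGroup.mk_nsmul, QuotientAddGroup.eq_zero_iff]
    refine ⟨⟨(0, X), memAA A.zero_mem ?_⟩, ?_⟩
    · have h1 : (1 : ℚ[X]) ∈ A := ⟨fun i => ⟨0, by simp [coeff_one]⟩, 2, by simp⟩
      simpa using X_mul_mem h1 ⟨1, by simp⟩
    · apply Subtype.ext
      rw [φ_val]
      have : divX (X : ℚ[X]) = 1 := by simpa using divX_X_mul' 1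
      simp only [this, t, AddSubgroup.coe_nsmul, Prod.smul_mk, e0]
      refine Prod.ext (by simp) ?_
      show (1 : ℚ[X]) = 2 • C (1 / 2)
      rw [← map_nsmul]; simp
  have hfin : (AddSubgroup.zmultiples (QuotientAddGroup.mk t : G ⧸ φ.range) :
      Set (G ⧸ φ.range)).Finite :=
    finite_zmultiples.2 (isOfFinAddOrder_iff_nsmul_eq_zero.2 ⟨2, by norm_num, h2⟩)
  rw [← Set.finite_univ_iff]
  refine hfin.subset ?_
  intro y _
  obtain ⟨v, rfl⟩ := QuotientAddGroup.mk_surjective y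
  obtain ⟨z, hz⟩ := key v
  refine ⟨z, ?_⟩
  show z • (QuotientAddGroup.mk t : G ⧸ φ.range) = QuotientAddGroup.mk v
  rw [← QuotientAddGroup.mk_zsmul, eq_comm, QuotientAddGroup.eq_iff_sub_mem]
  exact hz

theorem torsionFree (n : ℤ) (x : G) (hn : n ≠ 0) (h : n • x = 0) : x = 0 := by
  apply Subtype.ext
  have h' : n • (x : ℚ[X] × ℚ[X]) = 0 := congrArg Subtype.val h
  rw [← Int.cast_smul_eq_zsmul ℚ] at h'
  exact (smul_eq_zero.1 h').resolve_left (by exact_mod_cast hn)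

end Pool.Agent.P.MP_f7162b_al
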